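import Pool.Agent.Q7.GK.Def

/-!
# Project GK (helper7): statements of the parts

GOAL.  `p` odd, `μ_p ⊂ F`, `L = F(d^(1/p))` in the nested ensembles of projects LK, LS; `G` a set of primes of `F` above `p`, `m = r2(F)`, `s` = the number of the `v ∈ G` which split completely in `L`.  The matrix
`(lam P x)`, `x` in the group `NS L G` of the `G`-units of `L` of relative norm `1` (rank `(p-1)(m+s)`), `P` above `G`, has at most the rank `(p-1) s`.  THEOREM: it has the rank `(p-1) s` for a share `≥ 1 - p^(-m)/(p-1) - ε` of the `L`; so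
(`G` = all primes above `p`) the Gross–Kuz'min conjecture for `F` and `p` implies that for `L` and `p`, for this share of the `L`.
Proof as in project LS (`Pool/Agent/Q7/LS/*`, all done; the new part is the local condition `AG`: `lam v a ∈ p lam v (F_v^*)`, at most `p^([F_v:ℚ_p]+1)` classes, at the split `v ∈ G`): there are always `(p-1) m` independent relations, which give
`p^m - 1` classes modulo powers of `d`; if the rank is smaller there are at least `(p-1) m + 1` relations and `p^(m+1) - 1` classes; the mean of the number of the classes is `≤ p^m + ε`.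

All facts of projects LK and LS are available: `import Pool.Agent.Q7.LK.All3`, `Pool.Agent.Q7.LS.All` (`t_NSB`, `t_RKR`, `t_CR1S`, `t_CR2S`, `t_SPL`, ...).  Prove your job as a theorem WITHOUT hypotheses, or with the hypotheses
named in uses (other jobs of this file).  Notation: `lam P` for `lam Lg P`.
-/

set_option autoImplicit false

namespace Pool.Agent.Q7.GK

open NumberField IsDedekindDomain Filter Topology Finset
open Pool.Agent.Q283.LQ (Sm Box Nest nS)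
open Pool.Agent.Q7.LK
open Pool.Agent.Q7.LS (Ab Un nmU SUn NS IsBas LocN ManyX Ens Ao cX sX)
open Pool.Agent.W289.SL (IsIwasawaLog)

/-! ## The logarithm of the local norm -/

/-- JOB GQ. The values are `p`-adic integers.
Proof.  `Lg (σ (x y)) = Lg (σ x) + Lg (σ y)`: a homomorphism.  `lam P x = Lg z`, `z = ∏_(σ ∈ Em P) σ x`.  The `σ x` lie in `PadicAlgCl p ⊂ ℂ_p` (algebraic over `ℚ`; `ℂ_p` is the completion of `PadicAlgCl p`; all the roots in `ℂ_p` of a polynomial over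
`ℚ` lie in the algebraically closed `PadicAlgCl p`).  A `ℚ_p`-automorphism `g` of `PadicAlgCl p` preserves the norm, so `σ ↦ g ∘ σ` permutes the `σ` with `Em P σ`, and `z` is fixed by all `g`: `z ∈ ℚ_p` (Galois theory, characteristic `0`).
`z = p^k u`, `u` a unit of `ℤ_p`: `Lg z = Lg u`, `(p-1) Lg u = Lg (u^(p-1))`, `u^(p-1) = 1 + z'`, `‖z'‖ ≤ 1/p`; all terms of the power series are in `ℤ_p` (`‖z'^(n+1)/(n+1)‖ ≤ 1`), so its sum is in the closed subring `ℤ_p`, and `p - 1` is a unit. -/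
def S_GQ : Prop := ∀ (p : ℕ) [Fact p.Prime], p ≠ 2 → ∀ Lg : ℂ_[p] → ℂ_[p], IsIwasawaLog p Lg →
  ∀ (K : Type) [Field K] [NumberField K] (P : HeightOneSpectrum (𝓞 K)), (p : 𝓞 K) ∈ P.asIdeal →
  (∀ x y : K, x ≠ 0 → y ≠ 0 → lam Lg P (x * y) = lam Lg P x + lam Lg P y) ∧
  ∀ x : K, x ≠ 0 → ∃ r : ℤ_[p], lam Lg P x = ((r : ℚ_[p]) : ℂ_[p])

/-- JOB GN. Norms and conjugates.
Proof.  (1) `τ(N_(L/F) x) = ∏_(σ extends τ) σ x` for `τ : F → ℂ_p` (`Algebra.norm_eq_prod_embeddings`, `ℂ_p` as an `F`-algebra through `τ`); the `σ` which extend a `τ ∈ Em v` are the elements of the disjoint union of the `Em P`, `P` above `v` (`P = {x : ‖σ x‖ < 1}`; the set of the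
primes above `v` is finite).  (2) `P' = σ P` resp. `σ⁻¹ P` (compare `cjP` in `Pool/Agent/Q176/LS/CR1S.lean`), `τ ↦ τ ∘ σ` maps `Em P` to `Em P'`. -/
def S_GN : Prop := ∀ (p : ℕ) [Fact p.Prime] (Lg : ℂ_[p] → ℂ_[p]), IsIwasawaLog p Lg → ∀ (F L : Type) [Field F] [NumberField F]
  [Field L] [NumberField L] [Algebra F L],
  (∀ v : HeightOneSpectrum (𝓞 F), Dp p v → ∃ A : Finset (HeightOneSpectrum (𝓞 L)), (∀ P, P ∈ A ↔ Ab v P) ∧
    ∀ x : L, x ≠ 0 → ∑ P ∈ A, lam Lg P x = lam Lg v (Algebra.norm F x)) ∧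
  ∀ (σ : L ≃ₐ[F] L) (P : HeightOneSpectrum (𝓞 L)), ∃ P' : HeightOneSpectrum (𝓞 L),
    (∀ v : HeightOneSpectrum (𝓞 F), Ab v P → Ab v P') ∧ (∀ x : L, P'.valuation L x = P.valuation L (σ x)) ∧
    ∀ x : L, lam Lg P' x = lam Lg P (σ x)

/-- JOB GC (uses `S_GQ`). Continuity, and the maximal value.
Proof.  (1) For `σ ∈ Em P` and `P.valuation (x - 1) ≤ P.valuation (p^M)`: `‖σ x - 1‖ ≤ ‖p‖^M` (`z = (x-1)/p^M` has `P.valuation z ≤ 1`, `z = a / b` with `a, b ∈ 𝓞 K`, `b ∉ P`), so `‖Lg (σ x)‖ ≤ ‖p‖^M` for `M ≥ 1`, `p` odd (or any weaker bound, from the power series; see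
`dist_le` of `Pool/Agent/Y419/LC/LCP.lean`, `Pool/Agent/Q26/LS/LOGA.lean`).  (2) The norms `‖lam P x‖` are `0` or `‖p‖^n`, `n ≥ 0` (`S_GQ`), and `lam P (1 + p) = #(Em P) Lg (1 + p) ≠ 0` (`‖Lg (1 + p)‖ = ‖p‖`; `Em P` is not empty: there is an embedding which belongs to `P`, see
`Pool/Agent/W289/SL/Emb.lean`), so there is a maximal norm, and it is attained. -/
def S_GC : Prop := ∀ (p : ℕ) [Fact p.Prime], p ≠ 2 → ∀ Lg : ℂ_[p] → ℂ_[p], IsIwasawaLog p Lg →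
  ∀ (K : Type) [Field K] [NumberField K] (P : HeightOneSpectrum (𝓞 K)), (p : 𝓞 K) ∈ P.asIdeal →
  (∀ N : ℕ, ∃ M : ℕ, ∀ x : K, P.valuation K (x - 1) ≤ P.valuation K ((p : K) ^ M) → ‖lam Lg P x‖ ≤ ‖(p : ℂ_[p])‖ ^ N) ∧
  ∃ x₀ : K, x₀ ≠ 0 ∧ lam Lg P x₀ ≠ 0 ∧ ∀ x : K, x ≠ 0 → ‖lam Lg P x‖ ≤ ‖lam Lg P x₀‖

/-- JOB GS (uses `S_GQ`, `S_GN`, `S_GC`). Primes above a completely split prime.
Proof.  There are exactly `p` primes of `L` above `v` (`LS.t_SPL` = `Pool.Agent.Q77.LS.spl t_CPL`, and at most `p = [L : F]`), conjugate to each other.  (1) For `x ∈ F` the `lam P' x`, `P'` above `v`, are equal (`S_GN` (2)), and their sum is `lam v (x^p) = p lam v x` (`S_GN` (1)).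
(2) `e = f = 1` at `P`, so for every `M` there is an `x ∈ F` with `P.valuation (z / x - 1) ≤ P.valuation (p^M)` (multiply `z` by a power of an element of `F` of order `1` at `v`; then `𝓞 F / v^n → 𝓞 L / P^n` is an isomorphism; see `Pool/Agent/Q252/LS/NSP.lean`; or use the embeddings
`τ : L → v.adicCompletion F` of `Pool/Agent/Q77/LS/SPL.lean`, `F` is dense in the completion), and `lam P z = lam P x + lam P (z / x)`, `lam P x = lam v x`, `S_GC` (1). -/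
def S_GS : Prop := ∀ (p : ℕ) [Fact p.Prime], p ≠ 2 → ∀ Lg : ℂ_[p] → ℂ_[p], IsIwasawaLog p Lg →
  ∀ (F L : Type) [Field F] [NumberField F] [Field L] [NumberField L] [Algebra F L] (ζ d : F), IsPrimitiveRoot ζ p → Kum p F L d →
  ¬ IsPow p d → ∀ v : HeightOneSpectrum (𝓞 F), Dp p v → Lpw p v d → ∀ P : HeightOneSpectrum (𝓞 L), Ab v P →
  (∀ x : F, x ≠ 0 → lam Lg P (algebraMap F L x) = lam Lg v x) ∧
  ∀ z : L, z ≠ 0 → ∀ N : ℕ, ∃ x : F, x ≠ 0 ∧ ‖lam Lg P z - lam Lg v x‖ ≤ ‖(p : ℂ_[p])‖ ^ N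

/-! ## The local classes -/

/-- JOB GNUM (uses `S_GQ`, `S_GC`, `LK.S_BAS`, `LK.t_LOCV`). The number of the classes.
Proof.  Let `x₀` be as in `S_GC` (2).  `AG a` iff `a ≠ 0` and `‖lam v a‖ ≤ ‖p‖ ‖lam v x₀‖`.  `Lpw p v b` implies `‖lam v b‖ ≤ ‖p‖ ‖lam v x₀‖`: `b x^p` is close to `1`, `lam v b = - p lam v x + small` (`S_GC` (1)).  So `mul`.  Let `B` be as below: the numbers `b x₀^j`, `b ∈ B`, `0 ≤ j < p`, are pairwise different
modulo local `p`-th powers: if `b x₀^j / (b' x₀^(j'))` is `Lpw` then `‖(j - j') lam v x₀‖ ≤ ‖p‖ ‖lam v x₀‖`, so `j = j'`, `b = b'`.  By `LK.t_LOCV` `p #B ≤ p^(2 + dv p v)`. -/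
def S_GNUM : Prop := ∀ (p : ℕ) [Fact p.Prime], p ≠ 2 → ∀ Lg : ℂ_[p] → ℂ_[p], IsIwasawaLog p Lg →
  ∀ (F : Type) [Field F] [NumberField F] (ζ : F), IsPrimitiveRoot ζ p → ∀ v : HeightOneSpectrum (𝓞 F), Dp p v →
  (∀ a b : F, AG Lg v a → Lpw p v b → AG Lg v (a * b)) ∧
  ∀ B : Finset F, (∀ b ∈ B, AG Lg v b) → (∀ b ∈ B, ∀ b' ∈ B, b ≠ b' → ¬ Lpw p v (b / b')) → B.card ≤ p ^ (dv p v + 1)

/-- JOB GLCN (uses `S_GNUM`, `LK.S_BAS`, `LK.t_AUN`, `LK.t_AUC`). The local conditions have the properties `LocN`.  Template `Pool/Agent/Q252/LS/LCN.lean` (of `LS.S_LCN`, with `T = S = ∅`, so `cX p y ∅ ∅ D0 v = dv p v` for small `v`); new is only the case `v ∈ G`, `Lpw p v D0`. -/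
def S_GLCN : Prop := ∀ (p : ℕ) [Fact p.Prime], p ≠ 2 → ∀ Lg : ℂ_[p] → ℂ_[p], IsIwasawaLog p Lg →
  ∀ (F : Type) [Field F] [NumberField F] (ζ : F), IsPrimitiveRoot ζ p → ∀ y : ℕ, p ≤ y →
  ∀ G : Set (HeightOneSpectrum (𝓞 F)), (∀ v ∈ G, Dp p v) → ∀ D0 : F, D0 ≠ 0 →
  LocN p y D0 (fun v a => AXG Lg G D0 v a) (cX p y ∅ ∅ D0)

/-- JOB GBRG (uses `LK.S_BAS`, `LK.t_AUC`). From the conditions for `D` to the conditions for `D0`.  Template `Pool/Agent/Q79/LS/BRG.lean`. -/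
def S_GBRG : Prop := ∀ (p : ℕ) [Fact p.Prime], p ≠ 2 → ∀ Lg : ℂ_[p] → ℂ_[p], IsIwasawaLog p Lg →
  ∀ (F : Type) [Field F] [NumberField F] (ζ : F), IsPrimitiveRoot ζ p → ∀ y : ℕ, p ≤ y →
  ∀ G : Set (HeightOneSpectrum (𝓞 F)), (∀ v ∈ G, Dp p v) → ∀ D0 : F, D0 ≠ 0 →
  ∀ (k : ℕ) (z : Fin k → ZMod p) (q : Fin k → HeightOneSpectrum (𝓞 F)) (D : F), Fits p y D0 z q D →
  ∀ N : ℕ, ManyLG Lg G D N → ManyX p y (fun v a => AXG Lg G D0 v a) D N

/-- JOB GCLS (uses `S_GQ`, `S_GN`, `S_GC`, `S_GS`). The class at a split place `v ∈ G`.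
Proof.  Fix `P` above `v`.  `y_j = σ^j y`, `y_(j+1) = σ^j(w) y_j`, so `N y = ∏_(j < p) σ^j y = y^p ∏_(j < p-1) σ^j(w)^(p-1-j)` (`L/F` is Galois with group `⟨σ⟩`, see `kum_galois` in `Pool/Agent/Q7/LK/Fin2.lean`).  `lam v (N y) = lam P (N y)` (`S_GS` (1)) `= p lam P y + ∑_j (p-1-j) lam P (σ^j w)`,
and `lam P (σ^j w) = lam P_j w` for a prime `P_j` above `v` (`S_GN` (2)), `lam P_j w = lam P_j (w η^p) - p lam P_j η`.  By `S_GS` (2) and `S_GC` (2) (`x₀` for `v`): `‖lam P y‖, ‖lam P_j η‖ ≤ ‖lam v x₀‖`; choose `N` with `‖p‖^N ≤ ‖p‖ ‖lam v x₀‖`. -/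
def S_GCLS : Prop := ∀ (p : ℕ) [Fact p.Prime], p ≠ 2 → ∀ Lg : ℂ_[p] → ℂ_[p], IsIwasawaLog p Lg →
  ∀ (F L : Type) [Field F] [NumberField F] [Field L] [NumberField L] [Algebra F L] (ζ d : F), IsPrimitiveRoot ζ p → Kum p F L d →
  ¬ IsPow p d → ∀ σ : L ≃ₐ[F] L, σ ≠ 1 → ∀ v : HeightOneSpectrum (𝓞 F), Dp p v → Lpw p v d → ∀ w : Lˣ,
  (∀ N : ℕ, ∃ η : Lˣ, ∀ P : HeightOneSpectrum (𝓞 L), Ab v P → ‖lam Lg P ((w * η ^ p : Lˣ) : L)‖ ≤ ‖(p : ℂ_[p])‖ ^ N) →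
  ∀ y : L, y ≠ 0 → (w : L) * y = σ y → AG Lg v (Algebra.norm F y)

/-! ## Relations -/

/-- JOB GCR1 (uses `S_GQ`, `S_GN` (2); `LK.S_LAM` = `LK.t_LAM`). Elements of relative norm `1` from relations.  Template `LS.S_CR1S` (`Pool/Agent/Q176/LS/CR1S.lean`).
Proof.  `M = NS L G` modulo torsion, `M_p = ℤ_p^n` (basis `θ`), `R` = the set of the `a` with `RelG Lg G θ a`: a `ℤ_p`-submodule, stable under `σ` (`S_GN` (2)), saturated (`p a ∈ R` implies `a ∈ R`), of rank `≥ m`.  As in CR1S one obtains `t` elements of `R`, independent in `M_p / (1 - σ) M_p`, approximated by elements `w_i` of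
`M` modulo `p M`: for `b = ∑ c_i b_i ∈ R` and integers `m ≡ b` modulo `p^N`: `∏ θ^(m_i) ∈ (∏ w^c) η^p` and `lam P (∏ θ^(m_i)) = ∑ (m_i - b_i) lam P (θ_i)` has norm `≤ ‖p‖^N` (`S_GQ`).  (`h`-th powers: `IsBas` gives the elements of `NS L G` only up to torsion; `lam P` is `0` on torsion, by `S_GQ`.) -/
def S_GCR1 : Prop := ∀ (p : ℕ) [Fact p.Prime], p ≠ 2 → ∀ Lg : ℂ_[p] → ℂ_[p], IsIwasawaLog p Lg →
  ∀ (F L : Type) [Field F] [NumberField F] [Field L] [NumberField L] [Algebra F L] (ζ d : F), IsPrimitiveRoot ζ p → Kum p F L d →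
  ¬ IsPow p d → ∀ G : Set (HeightOneSpectrum (𝓞 F)), (∀ v ∈ G, Dp p v) → ∀ m t : ℕ, OutMG L Lg G m → (p - 1) * t < m + (p - 1) →
  ∀ σ : L ≃ₐ[F] L, σ ≠ 1 → OutWG Lg ζ G σ t

/-- JOB GCR2 (uses `S_GCLS`; the LS jobs CTS, CUS, NSP). The classes.  Template `Pool/Agent/Q79/LS/CR2S.lean` (of `LS.S_CR2S`, with `T = ∅`, `S = G`).
The only change: at `v ∈ G` with `Lpw p v d` use `S_GCLS` (for `w_c = ∏ w_i^(c_i)`); at `v ∈ G` with `¬ Lpw p v d` the elements of norm `1` are units above `v` (NSP), so `CUS`; at the other `v` elements of `NS L G` are units above `v`: `CUS` for `v ∣ p`, `CTS` for `v ∤ p`. -/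
def S_GCR2 : Prop := ∀ (p : ℕ) [Fact p.Prime], p ≠ 2 → ∀ Lg : ℂ_[p] → ℂ_[p], IsIwasawaLog p Lg →
  ∀ (F L : Type) [Field F] [NumberField F] [Field L] [NumberField L] [Algebra F L] (ζ d : F), IsPrimitiveRoot ζ p → Kum p F L d →
  ¬ IsPow p d → ∀ G : Set (HeightOneSpectrum (𝓞 F)), (∀ v ∈ G, Dp p v) → ∀ (t : ℕ) (σ : L ≃ₐ[F] L), σ ≠ 1 → OutWG Lg ζ G σ t →
  ManyLG Lg G d (p ^ t - 1)

/-- JOB GRK (uses `S_GQ`). Few independent vectors: many relations.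
Proof.  The matrix `M_(i,P) = lam P (θ_i)`, `P` above `G` (finitely many), has entries in `ℤ_p` (`S_GQ`).  If its rank over `ℚ_p` is `≥ R` then `R` of its rows are independent over `ℚ_p`, so over `ℂ_p` (a matrix over a field has the same rank over a larger field: see `indep_Cp` in
`Pool/Agent/Results/MP_1f047c_nt/RanksOfSUnitLogarithms.lean` when landed, or a right inverse), a contradiction.  So its rank is `≤ R - 1`, the space of the `a ∈ ℚ_p^n` with `∑ a_i M_i = 0` has at least the dimension `n + 1 - R`; clear denominators. -/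
def S_GRK : Prop := ∀ (p : ℕ) [Fact p.Prime], p ≠ 2 → ∀ Lg : ℂ_[p] → ℂ_[p], IsIwasawaLog p Lg →
  ∀ (F L : Type) [Field F] [NumberField F] [Field L] [NumberField L] [Algebra F L] (G : Set (HeightOneSpectrum (𝓞 F))),
  (∀ v ∈ G, Dp p v) → ∀ (H : Subgroup Lˣ) (n R : ℕ) (θ : Fin n → Lˣ), (∀ i, θ i ∈ H) → ¬ IndG Lg G H R →
  ∃ a : Fin (n + 1 - R) → Fin n → ℤ_[p], LinearIndependent ℤ_[p] a ∧ ∀ j, RelG Lg G θ (a j)

/-- JOB GFR (uses `S_GN`). The rank is at most `(p - 1) s`.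
Proof.  Let `x ∈ NS L G`.  `v ∈ G`, `¬ Lpw p v d`: there is only one prime `P` above `v` (the Galois group, of order `p`, is transitive on the primes above `v`, so there are `1` or `p`; `p` primes imply `Lpw p v d`, see `Pool/Agent/Q252/LS/NSP.lean`), and `lam P x = lam v (N x) = lam v 1 = 0`.
`Lpw p v d`: at most `p` primes above `v` and `∑_P lam P x = 0`.  So the vectors `(lam P x)` lie in a `ℂ_p`-space of dimension `≤ (p-1) #{v ∈ G : Lpw p v d} = (p-1) sX p G d` (drop one of the `P` above each split `v`). -/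
def S_GFR : Prop := ∀ (p : ℕ) [Fact p.Prime], p ≠ 2 → ∀ Lg : ℂ_[p] → ℂ_[p], IsIwasawaLog p Lg →
  ∀ (F L : Type) [Field F] [NumberField F] [Field L] [NumberField L] [Algebra F L] (ζ d : F), IsPrimitiveRoot ζ p → Kum p F L d →
  ¬ IsPow p d → ∀ G : Set (HeightOneSpectrum (𝓞 F)), (∀ v ∈ G, Dp p v) → ¬ IndG Lg G (NS L G) ((p - 1) * sX p G d + 1)

/-- JOB GFIN (uses `S_GN`). From `F` to `L`: (1) ranks add up; (2) the number of the primes above `p`.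
Proof.  (1) `ε_i ∈ NS L G` and `x_j` the images in `L` of `G`-units of `F`: if `∑ a_i lam P ε_i + ∑ b_j lam P x_j = 0` for all `P` above `G`, sum over the `P` above `v`: `∑ a_i lam v (N ε_i) + ∑ b_j lam v (x_j^p) = p ∑ b_j lam v x_j = 0` (`S_GN` (1); for `F` itself the only prime `P` with `Ab v P` is `v`), so
`b = 0`, `a = 0`.  (2) One prime above a `v ∣ p` with `¬ Lpw p v d` (see GFR), at most `p` above the others. -/
def S_GFIN : Prop := ∀ (p : ℕ) [Fact p.Prime], p ≠ 2 → ∀ Lg : ℂ_[p] → ℂ_[p], IsIwasawaLog p Lg →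
  ∀ (F L : Type) [Field F] [NumberField F] [Field L] [NumberField L] [Algebra F L] (ζ d : F), IsPrimitiveRoot ζ p → Kum p F L d →
  ¬ IsPow p d → ∀ G : Set (HeightOneSpectrum (𝓞 F)), (∀ v ∈ G, Dp p v) →
  (∀ R R' : ℕ, IndG Lg G (NS L G) R → IndG (L := F) Lg G (SUn F G) R' → IndG Lg G (SUn L G) (R + R')) ∧
  {P : HeightOneSpectrum (𝓞 L) | (p : 𝓞 L) ∈ P.asIdeal}.ncard ≤
    {v : HeightOneSpectrum (𝓞 F) | Dp p v}.ncard + (p - 1) * sX p {v : HeightOneSpectrum (𝓞 F) | Dp p v} d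

end Pool.Agent.Q7.GK
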