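import Pool.Agent.Q7.GK.Main
import Pool.Agent.Q7.LS.All2
import Pool.Agent.Q176.GK.GQ
import Pool.Agent.Q16.GK.GN
import Pool.Agent.Q16.GK.GC
import Pool.Agent.Q16.GK.GS
import Pool.Agent.Q190.GK.GNUM
import Pool.Agent.Q190.GK.GLCN
import Pool.Agent.Q18.GK.GBRG
import Pool.Agent.Q142.GK.GCLS
import Pool.Agent.Q142.GK.GCR1
import Pool.Agent.Q142.GK.GCR2
import Pool.Agent.Q139.GK.GRK
import Pool.Agent.Q162.GK.GFR
import Pool.Agent.Q177.GK.GFIN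

/-!
# Project GK (helper7): all parts together
-/

set_option autoImplicit false

namespace Pool.Agent.Q7.GK

open Pool.Agent.Q7.LK

theorem t_GQ : S_GQ := Pool.Agent.Q176.GK.GQ.gq
theorem t_GN : S_GN := Pool.Agent.Q16.GK.GN.gn
theorem t_GC : S_GC := Pool.Agent.Q16.GK.GC.gc t_GQ
theorem t_GS : S_GS := Pool.Agent.Q16.GK.GS.gs Pool.Agent.Q7.LS.t_SPL t_GQ t_GN t_GC
theorem t_GNUM : S_GNUM := Pool.Agent.Q190.GK.gnum t_BAS t_LOCV t_GQ t_GC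
theorem t_GLCN : S_GLCN := Pool.Agent.Q190.GK.glcn t_BAS t_AUN t_AUC t_GNUM
theorem t_GBRG : S_GBRG := Pool.Agent.Q18.GK.gbrg t_BAS t_AUC
theorem t_GCLS : S_GCLS := Pool.Agent.Q142.GK.gcls t_GQ t_GN t_GC t_GS
theorem t_GCR1 : S_GCR1 := Pool.Agent.Q142.GK.gcr1 t_GQ t_GN
theorem t_GCR2 : S_GCR2 :=
  Pool.Agent.Q142.GK.gcr2 t_GCLS (Pool.Agent.Q151.LS.cts t_BAS) (Pool.Agent.Q151.LS.cus t_BAS t_CPL) Pool.Agent.Q252.LS.nsp
theorem t_GRK : S_GRK := Pool.Agent.Q139.GK.grk t_GQ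
theorem t_GFR : S_GFR := Pool.Agent.Q162.GK.gfr t_GN
theorem t_GFIN : S_GFIN := Pool.Agent.Q177.GK.gfin t_GN

end Pool.Agent.Q7.GK
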