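import Pool.Agent.Q7.GK.All
import Pool.Agent.Q129.GK.GAB
import Pool.Agent.Q153.GK.GAB1

/-!
# Project GK (helper7): the Gross–Kuz'min conjecture for abelian fields
-/

set_option autoImplicit false

namespace Pool.Agent.Q7.GK

theorem t_GAB : S_GAB := Pool.Agent.Q129.GK.GAB.gab Pool.Agent.Q153.GK.gab1 t_GQ t_GN

end Pool.Agent.Q7.GK
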