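import Pool.Agent.Q7.LS.Stm
import Pool.Agent.W289.SL.Defs

/-!
# Project GK (helper7): the Gross–Kuz'min conjecture for most Kummer extensions of odd prime degree: definitions

`p` is an odd prime, `F` a number field containing a primitive `p`-th root of unity `ζ`, `L = F(d^(1/p))`, `G` a set of primes of `F` above `p`,
`Lg` Iwasawa's logarithm on `ℂ_p`.
-/

set_option autoImplicit false

namespace Pool.Agent.Q7.GK

open NumberField IsDedekindDomain Filter Topology Finset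
open Pool.Agent.Q283.LQ (Sm Box Nest nS)
open Pool.Agent.Q7.LK
open Pool.Agent.Q7.LS (Ab Un nmU SUn NS IsBas LocN ManyX Ens Ao cX sX)

section K

variable {p : ℕ} [Fact p.Prime] {K : Type} [Field K] [NumberField K]

/-- the embedding `σ` of `K` belongs to the prime `P` of `K` -/
def Em (P : HeightOneSpectrum (𝓞 K)) (σ : K →+* ℂ_[p]) : Prop :=
  ∀ x : 𝓞 K, x ∈ P.asIdeal ↔ ‖σ (x : K)‖ < 1

open Classical in
/-- the logarithm `log_p N_(K_P / ℚ_p)(x)` of the local norm of `x` at `P`: the sum of the logarithms of the conjugates which belong to `P` -/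
noncomputable def lam (Lg : ℂ_[p] → ℂ_[p]) (P : HeightOneSpectrum (𝓞 K)) (x : K) : ℂ_[p] :=
  ∑ σ : K →+* ℂ_[p], if Em P σ then Lg (σ x) else 0

end K

section L

variable {p : ℕ} [Fact p.Prime] {F : Type} [Field F] [NumberField F] {L : Type} [Field L] [NumberField L] [Algebra F L]

/-- `H` contains `R` elements whose vectors `(lam P)`, `P` above `G`, are linearly independent -/
def IndG (Lg : ℂ_[p] → ℂ_[p]) (G : Set (HeightOneSpectrum (𝓞 F))) (H : Subgroup Lˣ) (R : ℕ) : Prop :=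
  ∃ ε : Fin R → Lˣ, (∀ i, ε i ∈ H) ∧ ∀ a : Fin R → ℂ_[p],
    (∀ v ∈ G, ∀ P : HeightOneSpectrum (𝓞 L), Ab v P → ∑ i, a i * lam Lg P ((ε i : Lˣ) : L) = 0) → a = 0

/-- the vector `a` of `p`-adic integers is a relation between the vectors `(lam P (x i))`, `P` above `G` -/
def RelG (Lg : ℂ_[p] → ℂ_[p]) (G : Set (HeightOneSpectrum (𝓞 F))) {n : ℕ} (x : Fin n → Lˣ) (a : Fin n → ℤ_[p]) : Prop :=
  ∀ v ∈ G, ∀ P : HeightOneSpectrum (𝓞 L), Ab v P → ∑ i, (((a i : ℤ_[p]) : ℚ_[p]) : ℂ_[p]) * lam Lg P ((x i : Lˣ) : L) = 0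

variable (L) in
/-- a basis of `NS L G` modulo torsion has `m` independent relations -/
def OutMG (Lg : ℂ_[p] → ℂ_[p]) (G : Set (HeightOneSpectrum (𝓞 F))) (m : ℕ) : Prop :=
  ∃ (n : ℕ) (θ : Fin n → Lˣ) (h : ℕ), IsBas L G θ h ∧
    ∃ a : Fin m → Fin n → ℤ_[p], LinearIndependent ℤ_[p] a ∧ ∀ j, RelG Lg G θ (a j)

/-- `t` elements `w` of `NS L G`, independent modulo `p`-th powers and the `ζ^j σ(η) / η`, and such that `lam P (w η^p)` is arbitrarily small -/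
def OutWG (Lg : ℂ_[p] → ℂ_[p]) (ζ : F) (G : Set (HeightOneSpectrum (𝓞 F))) (σ : L ≃ₐ[F] L) (t : ℕ) : Prop :=
  ∃ w : Fin t → Lˣ, (∀ i, w i ∈ NS L G) ∧
    (∀ c : Fin t → ℤ, (∃ i, ¬ (p : ℤ) ∣ c i) → ∀ η ∈ NS L G, ∀ j : ℕ,
      ((∏ i, w i ^ c i : Lˣ) : L) * (η : L) ≠ (algebraMap F L ζ) ^ j * σ (η : L)) ∧
    ∀ (c : Fin t → ℤ) (N : ℕ), ∃ η ∈ NS L G, ∀ v ∈ G, ∀ P : HeightOneSpectrum (𝓞 L), Ab v P →
      ‖lam Lg P ((((∏ i, w i ^ c i) * η ^ p : Lˣ)) : L)‖ ≤ ‖(p : ℂ_[p])‖ ^ N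

end L

section F

variable {p : ℕ} [Fact p.Prime] {F : Type} [Field F] [NumberField F]

/-- `lam v a` belongs to `p` times the closure of the values of `lam v` -/
def AG (Lg : ℂ_[p] → ℂ_[p]) (v : HeightOneSpectrum (𝓞 F)) (a : F) : Prop :=
  a ≠ 0 ∧ ∃ x : F, x ≠ 0 ∧ ‖lam Lg v a‖ ≤ ‖(p : ℂ_[p])‖ * ‖lam Lg v x‖

/-- the local condition at the place `v` -/
structure AXG (Lg : ℂ_[p] → ℂ_[p]) (G : Set (HeightOneSpectrum (𝓞 F))) (D : F) (v : HeightOneSpectrum (𝓞 F)) (a : F) : Prop where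
  ne : a ≠ 0
  inG : v ∈ G → Lpw p v D → AG Lg v a
  inp : Dp p v → ¬ (v ∈ G ∧ Lpw p v D) → AU p v D a
  out : ¬ Dp p v → Ao p v D a

/-- there are `N` numbers with the local conditions `AXG` everywhere which are pairwise different, and different from `1`, up to `p`-th
powers and powers of `D` -/
def ManyLG (Lg : ℂ_[p] → ℂ_[p]) (G : Set (HeightOneSpectrum (𝓞 F))) (D : F) (N : ℕ) : Prop :=
  ∃ a : Fin N → F, (∀ i, (∀ v, AXG Lg G D v (a i)) ∧ ∀ j : ℕ, ¬ IsPow p (a i * D ^ j)) ∧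
    ∀ i i', i ≠ i' → ∀ j : ℕ, ¬ IsPow p (a i / a i' * D ^ j)

end F

end Pool.Agent.Q7.GK
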