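import Pool.Agent.Q7.GK.Stm
import Pool.Agent.Q7.LS.Main

/-!
# Project GK (helper7): assembly

The share of the extensions `L = F(D^(1/p))` for which the matrix of the logarithms of the local norms of the `G`-units of relative norm `1` has
not the maximal rank.
-/

set_option autoImplicit false
set_option linter.unusedSectionVars false

namespace Pool.Agent.Q7.GK

open NumberField IsDedekindDomain Filter Topology Finset
open Pool.Agent.Q283.LQ (Sm Box Nest nS)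
open Pool.Agent.Q7.LK
open Pool.Agent.Q7.LS (Ab Un nmU SUn NS IsBas LocN ManyX Ens Ao cX sX S_NSB S_MEANN S_SUMC S_BRG dT)
open Pool.Agent.W289.SL (IsIwasawaLog)

section L

variable {p : ℕ} [Fact p.Prime] {F : Type} [Field F] [NumberField F] {L : Type} [Field L] [NumberField L] [Algebra F L]

theorem outMG_mono {Lg : ℂ_[p] → ℂ_[p]} {G : Set (HeightOneSpectrum (𝓞 F))} {m m' : ℕ} (h : m' ≤ m)
    (ho : OutMG L Lg G m) : OutMG L Lg G m' := by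
  obtain ⟨n, θ, h0, hB, a, ha, hr⟩ := ho
  exact ⟨n, θ, h0, hB, fun j => a (Fin.castLE h j), ha.comp _ (Fin.castLE_injective h), fun j => hr _⟩

/-- few independent vectors: many relations of a basis -/
theorem out_of_rankG (hNSB : S_NSB) (hGRK : S_GRK) (hp : p ≠ 2) {Lg : ℂ_[p] → ℂ_[p]} (hL : IsIwasawaLog p Lg) {ζ d : F}
    (hζ : IsPrimitiveRoot ζ p) (hK : Kum p F L d) (hd : ¬ IsPow p d) {G : Set (HeightOneSpectrum (𝓞 F))}
    (hG : ∀ v ∈ G, Dp p v) (hGf : G.Finite) {R M : ℕ} (hR : ¬ IndG Lg G (NS L G) R)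
    (hM : M + R ≤ (p - 1) * (InfinitePlace.nrComplexPlaces F + sX p G d) + 1) : OutMG L Lg G M := by
  obtain ⟨n, θ, h, hB, hn⟩ := hNSB p hp F L ζ d hζ hK hd G hGf
  obtain ⟨a, ha, hr⟩ := hGRK p hp Lg hL F L G hG (NS L G) n R θ hB.2.1 hR
  exact outMG_mono (by omega) ⟨n, θ, h, hB, a, ha, hr⟩

end L

theorem many_of_outG (hCR1 : S_GCR1) (hCR2 : S_GCR2) (hBRG : S_GBRG) {p : ℕ} [Fact p.Prime] (hp : p ≠ 2)
    {Lg : ℂ_[p] → ℂ_[p]} (hL : IsIwasawaLog p Lg) {F : Type}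
    [Field F] [NumberField F] {ζ : F} (hζ : IsPrimitiveRoot ζ p) {y : ℕ} (hy : p ≤ y)
    {G : Set (HeightOneSpectrum (𝓞 F))} (hG : ∀ v ∈ G, Dp p v)
    {D0 : F} (hD0 : D0 ≠ 0) {k : ℕ} {z : Fin k → ZMod p} {q : Fin k → HeightOneSpectrum (𝓞 F)} {D : F}
    (hD : Fits p y D0 z q D) (hnp : ¬ IsPow p D) {L : Type} [Field L] [NumberField L] [Algebra F L]
    (hK : Kum p F L D) {m t : ℕ} (ho : OutMG L Lg G m) (hmt : (p - 1) * t < m + (p - 1)) :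
    ManyX p y (fun v a => AXG Lg G D0 v a) D (p ^ t - 1) := by
  have hgal : IsGalois F L := kum_galois hζ hK hnp
  have hfd : FiniteDimensional F L := Module.Finite.of_restrictScalars_finite ℚ F L
  have hcard : Nat.card (L ≃ₐ[F] L) = p := by
    rw [IsGalois.card_aut_eq_finrank, hK.deg]
  obtain ⟨σ, hσ⟩ : ∃ σ : L ≃ₐ[F] L, σ ≠ 1 := by
    by_contra hc
    push Not at hc
    have : Subsingleton (L ≃ₐ[F] L) := ⟨fun a b => by rw [hc a, hc b]⟩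
    have h1 := Nat.card_of_subsingleton (1 : L ≃ₐ[F] L)
    rw [hcard] at h1
    exact (Fact.out : p.Prime).one_lt.ne' h1
  have h1 := hCR1 p hp Lg hL F L ζ D hζ hK hnp G hG m t ho hmt σ hσ
  have h2 := hCR2 p hp Lg hL F L ζ D hζ hK hnp G hG t σ hσ h1
  exact hBRG p hp Lg hL F ζ hζ y hy G hG D0 hD0 k z q D hD _ h2

/-- The share of the `L` whose matrix of the `lam P` has less than the maximal rank -/
def S_SHAREG : Prop := ∀ (p : ℕ) [Fact p.Prime], p ≠ 2 → ∀ Lg : ℂ_[p] → ℂ_[p], IsIwasawaLog p Lg →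
  ∀ (F : Type) [Field F] [NumberField F] (ζ : F),
  IsPrimitiveRoot ζ p → ∃ y0 : ℕ, ∀ y, y0 ≤ y → ∀ G : Set (HeightOneSpectrum (𝓞 F)), (∀ v ∈ G, Dp p v) →
  G.Finite → ∀ D0 : F, D0 ≠ 0 → ∀ ε : ℝ, 0 < ε →
  ∃ k0 : ℕ, ∀ k, k0 ≤ k → ∀ z : Fin k → ZMod p, (∀ i, z i ≠ 0) → Nest k fun X =>
    (Box y X : Set (Fin k → HeightOneSpectrum (𝓞 F))).Finite ∧ 0 < ((Ens p y D0 z X).ncard : ℝ) ∧
    ∀ t : ℕ, 1 ≤ t →
      ({q ∈ Ens p y D0 z X | ∃ D, Fits p y D0 z q D ∧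
          ∃ (L : Type) (_ : Field L) (_ : NumberField L) (_ : Algebra F L), Kum p F L D ∧
            OutMG L Lg G ((p - 1) * (InfinitePlace.nrComplexPlaces F + t - 1) + 1)}.ncard : ℝ) ≤
        ((1 / (p : ℝ)) ^ InfinitePlace.nrComplexPlaces F / ((p : ℝ) ^ t - 1) + ε) *
          ((Ens p y D0 z X).ncard : ℝ)

open Classical in
theorem sharesG (hNSB : S_NSB) (hGRK : S_GRK) (hGFR : S_GFR) (hCR1 : S_GCR1) (hCR2 : S_GCR2) (hBRG : S_GBRG)
    (hMEAN : S_MEANN) (hLCN : S_GLCN) (hSUMC : S_SUMC) : S_SHAREG := by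
  intro p _ hp Lg hL F _ _ ζ hζ
  have hpp : p.Prime := Fact.out
  have hp1 : (1 : ℝ) < p := by exact_mod_cast hpp.one_lt
  have hp0 : (p : ℝ) ≠ 0 := by positivity
  obtain ⟨y0, hy0⟩ := hMEAN p hp F ζ hζ
  refine ⟨max y0 p, fun y hy G hG hGf D0 hD0 ε hε => ?_⟩
  have hyp : p ≤ y := (le_max_right _ _).trans hy
  have hloc := hLCN p hp Lg hL F ζ hζ y hyp G hG D0 hD0
  have hsum := hSUMC p hp F ζ hζ y hyp ∅ ∅ (fun v hv => absurd hv (Set.notMem_empty v)) (Set.disjoint_empty _)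
    (fun v hv => absurd hv (Set.notMem_empty v)) D0 hD0
  have hsX : sX p (∅ : Set (HeightOneSpectrum (𝓞 F))) D0 = 0 := by
    unfold sX
    rw [show {v : HeightOneSpectrum (𝓞 F) | v ∈ (∅ : Set (HeightOneSpectrum (𝓞 F))) ∧ Lpw p v D0} = ∅ by
      ext v
      simp]
    exact Set.ncard_empty _
  rw [hsX] at hsum
  obtain ⟨k0, hk0⟩ := hy0 y ((le_max_left _ _).trans hy) D0 hD0 _ _ hloc ε hε
  refine ⟨max k0 1, fun k hk z hz => nest_mono k _ _ (fun X hX => ?_) (hk0 k ((le_max_left _ _).trans hk) z hz)⟩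
  have hk1 : 1 ≤ k := (le_max_right _ _).trans hk
  obtain ⟨hfin, hpos, hN⟩ := hX
  refine ⟨hfin, hpos, fun t ht => ?_⟩
  set r := InfinitePlace.nrComplexPlaces F with hr
  set C := ∑ᶠ v, cX p y ∅ ∅ D0 v with hC
  set E := Ens p y D0 z X with hE
  have hEf : E.Finite := hfin.subset fun q hq => hq.1
  set Bd : Set (Fin k → HeightOneSpectrum (𝓞 F)) := {q ∈ E | ∃ D, Fits p y D0 z q D ∧
    ∃ (L : Type) (_ : Field L) (_ : NumberField L) (_ : Algebra F L), Kum p F L D ∧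
      OutMG L Lg G ((p - 1) * (r + t - 1) + 1)} with hBd
  have hBdE : Bd ⊆ E := fun q hq => hq.1
  have hBf : Bd.Finite := hEf.subset hBdE
  have hpp1 : 0 < p - 1 := Nat.sub_pos_of_lt hpp.one_lt
  -- the bad `q`
  have hbad : ∀ q ∈ Bd, ∃ D, Fits p y D0 z q D ∧ ManyX p y (fun v a => AXG Lg G D0 v a) D (p ^ (r + t) - 1) := by
    rintro q ⟨hq, D, hD, L, i1, i2, i3, hK, ho⟩
    refine ⟨D, hD, many_of_outG hCR1 hCR2 hBRG hp hL hζ hyp hG hD0 hD (fits_not_pow hq.1 hk1 hz hD) hK ho ?_⟩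
    obtain ⟨w, hw⟩ : ∃ w, r + t = w + 1 := ⟨r + t - 1, by omega⟩
    rw [hw, Nat.add_sub_cancel, Nat.mul_add, mul_one]
    omega
  -- all `q`
  have hall : ∀ q ∈ E, ∃ D, Fits p y D0 z q D ∧ ManyX p y (fun v a => AXG Lg G D0 v a) D (p ^ r - 1) := by
    rintro q ⟨hq, D, hD⟩
    refine ⟨D, hD, ?_⟩
    have hnp := fits_not_pow hq hk1 hz hD
    obtain ⟨L, i1, i2, i3, hK, _⟩ := Pool.Agent.Q150.LK.exists_kumfield hζ hnp
    have ho : OutMG L Lg G ((p - 1) * r) := by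
      refine out_of_rankG hNSB hGRK hp hL hζ hK hnp hG hGf (hGFR p hp Lg hL F L ζ D hζ hK hnp G hG) ?_
      rw [← add_assoc, ← Nat.mul_add]
    refine many_of_outG hCR1 hCR2 hBRG hp hL hζ hyp hG hD0 hD hnp hK ho ?_
    omega
  -- the mean
  have hmean := hN hEf.toFinset (fun q => if q ∈ Bd then p ^ (r + t) - 1 else p ^ r - 1)
    (fun q hq => hEf.mem_toFinset.mp hq) (fun q hq => by
      by_cases h : q ∈ Bd
      · simp only [h, if_true]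
        exact hbad q h
      · simp only [h, if_false]
        exact hall q (hEf.mem_toFinset.mp hq))
  have hsumN : (∑ q ∈ hEf.toFinset, ((if q ∈ Bd then p ^ (r + t) - 1 else p ^ r - 1 : ℕ) : ℝ)) =
      (Bd.ncard : ℝ) * ((p : ℝ) ^ r * ((p : ℝ) ^ t - 1)) + (E.ncard : ℝ) * ((p : ℝ) ^ r - 1) := by
    have h1 : ∀ q : Fin k → HeightOneSpectrum (𝓞 F), ((if q ∈ Bd then p ^ (r + t) - 1 else p ^ r - 1 : ℕ) : ℝ) =
        (if q ∈ Bd then (p : ℝ) ^ r * ((p : ℝ) ^ t - 1) else 0) + ((p : ℝ) ^ r - 1) := by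
      intro q
      have h2 : ∀ j : ℕ, ((p ^ j - 1 : ℕ) : ℝ) = (p : ℝ) ^ j - 1 := by
        intro j
        rw [Nat.cast_sub (Nat.one_le_pow _ _ hpp.pos)]
        push_cast
        ring
      split_ifs
      · rw [h2, pow_add]
        ring
      · rw [h2]
        ring
    simp_rw [h1]
    rw [Finset.sum_add_distrib, Finset.sum_const, nsmul_eq_mul, ← Set.ncard_eq_toFinset_card E hEf,
      Finset.sum_ite, Finset.sum_const_zero, add_zero, Finset.sum_const, nsmul_eq_mul]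
    congr 2
    rw [Set.ncard_eq_toFinset_card Bd hBf]
    congr 2
    ext q
    simp only [Finset.mem_filter, Set.Finite.mem_toFinset]
    exact ⟨fun h => h.2, fun h => ⟨hBdE h, h⟩⟩
  rw [hsumN] at hmean
  -- the exponent
  have hμ : (p : ℝ) ^ C * (1 / (p : ℝ)) ^ r ≤ (p : ℝ) ^ r := by
    have h1 : C ≤ 2 * r := by omega
    calc (p : ℝ) ^ C * (1 / (p : ℝ)) ^ r ≤ (p : ℝ) ^ (2 * r) * (1 / (p : ℝ)) ^ r :=
          mul_le_mul_of_nonneg_right (pow_le_pow_right₀ hp1.le h1) (by positivity)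
      _ = (p : ℝ) ^ r := by
          rw [two_mul, pow_add, mul_assoc, ← mul_pow, mul_one_div_cancel hp0, one_pow, mul_one]
  -- the conclusion
  have hEpos : (0 : ℝ) ≤ (E.ncard : ℝ) := by positivity
  have hpt1 : (1 : ℝ) ≤ (p : ℝ) ^ t - 1 := by
    have h1 : (2 : ℝ) ≤ p := by exact_mod_cast hpp.two_le
    have h2 : (p : ℝ) ^ 1 ≤ (p : ℝ) ^ t := pow_le_pow_right₀ hp1.le ht
    rw [pow_one] at h2
    linarith
  have hpt : (0 : ℝ) < (p : ℝ) ^ t - 1 := by linarith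
  have hkey : (Bd.ncard : ℝ) * ((p : ℝ) ^ r * ((p : ℝ) ^ t - 1)) ≤ (1 + ε) * (E.ncard : ℝ) := by
    have h5 := mul_le_mul_of_nonneg_right hμ hEpos
    linarith
  have h8 : (Bd.ncard : ℝ) * ((p : ℝ) ^ t - 1) ≤ (1 / (p : ℝ)) ^ r * ((1 + ε) * (E.ncard : ℝ)) := by
    have h9 : (Bd.ncard : ℝ) * ((p : ℝ) ^ t - 1) =
        (1 / (p : ℝ)) ^ r * ((Bd.ncard : ℝ) * ((p : ℝ) ^ r * ((p : ℝ) ^ t - 1))) := by
      have h10 : (1 / (p : ℝ)) ^ r * (p : ℝ) ^ r = 1 := by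
        rw [← mul_pow, one_div_mul_cancel hp0, one_pow]
      calc (Bd.ncard : ℝ) * ((p : ℝ) ^ t - 1) = ((1 / (p : ℝ)) ^ r * (p : ℝ) ^ r) * ((Bd.ncard : ℝ) * ((p : ℝ) ^ t - 1)) := by
            rw [h10, one_mul]
        _ = _ := by ring
    rw [h9]
    exact mul_le_mul_of_nonneg_left hkey (by positivity)
  have h11 : (1 / (p : ℝ)) ^ r ≤ 1 := pow_le_one₀ (by positivity) (by
    rw [div_le_one (by linarith)]
    exact hp1.le)
  have h12 : (Bd.ncard : ℝ) ≤ (1 / (p : ℝ)) ^ r * ((1 + ε) * (E.ncard : ℝ)) / ((p : ℝ) ^ t - 1) :=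
    (le_div_iff₀ hpt).mpr h8
  refine h12.trans ?_
  have h13 : (1 / (p : ℝ)) ^ r * ((1 + ε) * (E.ncard : ℝ)) / ((p : ℝ) ^ t - 1) =
      ((1 / (p : ℝ)) ^ r / ((p : ℝ) ^ t - 1)) * (E.ncard : ℝ) +
        ((1 / (p : ℝ)) ^ r / ((p : ℝ) ^ t - 1)) * ε * (E.ncard : ℝ) := by
    ring
  have h14 : (1 / (p : ℝ)) ^ r / ((p : ℝ) ^ t - 1) ≤ 1 := by
    rw [div_le_one hpt]
    linarith
  have h15 : ((1 / (p : ℝ)) ^ r / ((p : ℝ) ^ t - 1)) * ε * (E.ncard : ℝ) ≤ 1 * ε * (E.ncard : ℝ) :=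
    mul_le_mul_of_nonneg_right (mul_le_mul_of_nonneg_right h14 hε.le) hEpos
  rw [h13]
  linarith

end Pool.Agent.Q7.GK
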