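import Pool.Agent.Q7.GK.Def

/-!
# Project GK (helper7), part 2: the Gross–Kuz'min conjecture for abelian fields (Greenberg), from the theorem of Brumer

Tools: `Pool.Agent.W245.PB.brumer` (`Pool/Agent/W245/PB/BakerThmP.lean`, in `PadicAlgCl p`); `Pool/Agent/Y944/LC/BRU.lean` (Leopoldt for abelian fields: `La`, `ic`, `ic_La`, `isLog_La`, passage between `ℂ_p` and `PadicAlgCl p`).
-/

set_option autoImplicit false

namespace Pool.Agent.Q7.GK

open NumberField IsDedekindDomain Filter Topology Finset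
open Pool.Agent.W289.SL (IsIwasawaLog)

/-- JOB GAB1. The sums with characters are not zero.
Proof.  `x_g = σ₀(g π)`, algebraic numbers.  Choose `I ⊂ Γ` such that the `Lg x_i`, `i ∈ I`, form a basis of the `ℚ`-span of all `Lg x_g`: `Lg x_g = ∑_(i ∈ I) c_(g,i) Lg x_i`, `c_(g,i) ∈ ℚ`.  If the sum is zero then `∑_i (∑_g χ(g) c_(g,i)) Lg x_i = 0`, and by the theorem of Brumer (the values of `χ` are
roots of unity) `∑_g χ(g) c_(g,i) = 0` for all `i`.  `Lg z = 0` for an algebraic `z ≠ 0` implies `z^M = p^k` for some `M > 0`, `k ∈ ℤ` (`exists_near`, `hL.pe_log` and others in `W245/PB`; or `brumer` with one element; elementary: `z^m p^r` is close to `1` and `Lg` is injective near `1`).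
So for every `g` there are `M > 0`, `k_g`, with `(g π)^(M) = p^(k_g) ∏_i (i π)^(M c_(g,i))` in `K` (`M` a common denominator, the same for all `g`).  Take the order `v_h` at the prime `h P0` (`v_h(x) = v(h⁻¹ x)`, `v` the order at `P0`), `e = v(p)`: `M v_h(g π) = k_g e + ∑_i M c_(g,i) v_h(i π)` for all `g, h`.
Multiply by `χ(g)` and sum over `g`: `M ∑_g χ(g) v_h(g π) = e ∑_g χ(g) k_g`, independent of `h`.  But `v_h(g π) = v(h⁻¹ g π)` is `v(π) ≠ 0` if `h⁻¹ g` fixes `P0`, and `0` otherwise (`π` is a unit outside `P0`), so the left side is `M v(π) #D χ(h)`, `D` the stabiliser of `P0`.  So `χ(h) = χ(1)` for all `h`: a contradiction. -/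
def S_GAB1 : Prop := ∀ (p : ℕ) [Fact p.Prime] (Lg : ℂ_[p] → ℂ_[p]), IsIwasawaLog p Lg →
  ∀ (K : Type) [Field K] [NumberField K], IsGalois ℚ K → (∀ g h : K ≃ₐ[ℚ] K, g * h = h * g) →
  ∀ P0 : HeightOneSpectrum (𝓞 K), (p : 𝓞 K) ∈ P0.asIdeal → ∀ π : K, π ≠ 0 → P0.valuation K π < 1 →
  (∀ P : HeightOneSpectrum (𝓞 K), P ≠ P0 → P.valuation K π = 1) →
  ∀ χ : (K ≃ₐ[ℚ] K) →* ℂ_[p]ˣ, χ ≠ 1 → (∀ g : K ≃ₐ[ℚ] K, (∀ x : K, P0.valuation K (g x) = P0.valuation K x) → χ g = 1) →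
  ∀ σ₀ : K →+* ℂ_[p], ∑ g : K ≃ₐ[ℚ] K, ((χ g : ℂ_[p]ˣ) : ℂ_[p]) * Lg (σ₀ (g π)) ≠ 0

/-- JOB GAB (uses `S_GAB1`, `S_GQ`, `S_GN`). The Gross–Kuz'min conjecture for abelian fields.
Proof.  `P0` above `p`, `(π) = P0^h` (`h` the class number), `Γ = Gal(K/ℚ)`, `D` the stabiliser of `P0`, `r = #(Γ/D)` = the number of the primes above `p` (transitivity), `σ₀` an embedding which belongs to `P0`; the others which belong to `P0` are the `σ₀ τ`, `τ ∈ D`.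
`f(g) = lam P0 (g π) = ∑_(τ ∈ D) Lg (σ₀ (τ g π))`, and `lam (h⁻¹ P0) x = lam P0 (h x)`, so `f` is constant on the cosets of `D` (`Γ` abelian).  For a character `χ` of `Γ/D`: `∑_(g ∈ Γ) χ(g) f(g) = #D ∑_(g ∈ Γ) χ(g) Lg (σ₀ (g π))`, which is not zero for `χ ≠ 1` (`S_GAB1`).
Take the `r - 1` elements `g π`, `g` in a system of representatives of `Γ/D` without one class `g₀ D`.  If `∑_g a_g lam P (g π) = 0` for all `P` above `p` (`a_(g₀) = 0`), i.e. `∑_g a_g f(h g) = 0` for all `h ∈ Γ`, multiply by `χ(h)` and sum over `h`: `(∑_g a_g χ(g)⁻¹) (∑_h χ(h) f(h)) = 0`, so `∑_g a_g χ(g)⁻¹ = 0` for all `χ ≠ 1`;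
so `a` is constant on `Γ/D` (orthogonality of the characters of `Γ/D`, `ℂ_p` is algebraically closed of characteristic `0`), `a = a_(g₀) = 0`. -/
def S_GAB : Prop := ∀ (p : ℕ) [Fact p.Prime], p ≠ 2 → ∀ Lg : ℂ_[p] → ℂ_[p], IsIwasawaLog p Lg →
  ∀ (K : Type) [Field K] [NumberField K], IsGalois ℚ K → (∀ g h : K ≃ₐ[ℚ] K, g * h = h * g) →
  ∃ ε : Fin ({P : HeightOneSpectrum (𝓞 K) | (p : 𝓞 K) ∈ P.asIdeal}.ncard - 1) → Kˣ,
    (∀ i, ∀ P : HeightOneSpectrum (𝓞 K), (p : 𝓞 K) ∉ P.asIdeal → P.valuation K ((ε i : Kˣ) : K) = 1) ∧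
    ∀ a : Fin ({P : HeightOneSpectrum (𝓞 K) | (p : 𝓞 K) ∈ P.asIdeal}.ncard - 1) → ℂ_[p],
      (∀ P : HeightOneSpectrum (𝓞 K), (p : 𝓞 K) ∈ P.asIdeal → ∑ i, a i * lam Lg P ((ε i : Kˣ) : K) = 0) → a = 0

end Pool.Agent.Q7.GK
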